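import Pool.Agent.Helper57.QZ.Stmts

/-! # Row BR (MP_818aa8_nt) -/

set_option autoImplicit false

namespace Pool.Agent.Helper57.QZ

open MeasureTheory Set Filter Topology

namespace S89

theorem pr_prime {y : ℕ} (p : Pr y) : (p : ℕ).Prime := (Nat.mem_primesBelow.1 p.2).2

/-- the Euler factor -/
theorem cp {y : ℕ} (p : Pr y) (σ t : ℝ) : ((p : ℕ) : ℂ) ^ (-(pt σ t)) =
    Complex.exp (-((lin y t p : ℂ) * Complex.I)) * (aa σ p : ℂ) := by
  have hp := pr_prime p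
  have h0 : ((p : ℕ) : ℂ) ≠ 0 := by exact_mod_cast hp.ne_zero
  have h1 : (aa σ p : ℂ) = Complex.exp ((Real.log ((p : ℕ) : ℝ) : ℂ) * (-σ)) := by
    unfold aa
    rw [Complex.ofReal_cpow (Nat.cast_nonneg _), Complex.ofReal_natCast,
      Complex.cpow_def_of_ne_zero h0, Complex.natCast_log]
    push_cast
    rfl
  rw [h1, ← Complex.exp_add, Complex.cpow_def_of_ne_zero h0, ← Complex.natCast_log]
  congr 1
  unfold pt lin
  push_cast
  ring

theorem fac_ne {y : ℕ} (p : Pr y) (σ t : ℝ) (hσ : 0 < σ) :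
    1 - ((p : ℕ) : ℂ) ^ (-(pt σ t)) ≠ 0 := by
  have hp := pr_prime p
  intro h
  have h1 : ((p : ℕ) : ℂ) ^ (-(pt σ t)) = 1 := (sub_eq_zero.1 h).symm
  have h2 : ‖((p : ℕ) : ℂ) ^ (-(pt σ t))‖ = ((p : ℕ) : ℝ) ^ (-σ) := by
    rw [Complex.norm_natCast_cpow_of_pos hp.pos]
    simp [pt]
  rw [h1, norm_one] at h2
  have h3 : ((p : ℕ) : ℝ) ^ (-σ) < 1 :=
    Real.rpow_lt_one_of_one_lt_of_neg (by exact_mod_cast hp.one_lt) (by linarith)
  linarith

/-- the product -/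
noncomputable def DD (y : ℕ) (s : ℂ) : ℂ := ∏ p : Pr y, (1 - ((p : ℕ) : ℂ) ^ (-s))

theorem DD_ne (y : ℕ) (σ t : ℝ) (hσ : 0 < σ) : DD y (pt σ t) ≠ 0 := by
  unfold DD
  exact Finset.prod_ne_zero_iff.2 fun p _ => fac_ne p σ t hσ

theorem Zy_eq (y : ℕ) (σ t : ℝ) : Zy y σ (lin y t) = (DD y (pt σ t))⁻¹ := by
  unfold Zy DD
  rw [← Finset.prod_inv_distrib]
  exact Finset.prod_congr rfl fun p _ => by rw [cp p σ t]

theorem hasDerivAt_fac {y : ℕ} (p : Pr y) (s : ℂ) :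
    HasDerivAt (fun w : ℂ => 1 - ((p : ℕ) : ℂ) ^ (-w))
      ((Real.log ((p : ℕ) : ℝ) : ℂ) * ((p : ℕ) : ℂ) ^ (-s)) s := by
  have hp := pr_prime p
  have h0 : ((p : ℕ) : ℂ) ≠ 0 := by exact_mod_cast hp.ne_zero
  have h1 : HasDerivAt (fun w : ℂ => -w) (-1) s := (hasDerivAt_id s).neg
  have h2 := (h1.const_cpow (c := ((p : ℕ) : ℂ)) (Or.inl h0)).const_sub 1
  rw [← Complex.natCast_log] at h2
  refine h2.congr_deriv ?_
  ring

theorem logDeriv_DD (y : ℕ) (σ t : ℝ) (hσ : 0 < σ) :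
    deriv (DD y) (pt σ t) / DD y (pt σ t) = -Wy y σ (lin y t) := by
  have h1 : logDeriv (fun w => ∏ p : Pr y, (1 - ((p : ℕ) : ℂ) ^ (-w))) (pt σ t) =
      ∑ p : Pr y, logDeriv (fun w : ℂ => 1 - ((p : ℕ) : ℂ) ^ (-w)) (pt σ t) :=
    logDeriv_prod (fun p _ => fac_ne p σ t hσ) (fun p _ => (hasDerivAt_fac p _).differentiableAt)
  have h2 : deriv (DD y) (pt σ t) / DD y (pt σ t) =
      logDeriv (fun w => ∏ p : Pr y, (1 - ((p : ℕ) : ℂ) ^ (-w))) (pt σ t) := rfl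
  rw [h2, h1]
  unfold Wy
  rw [neg_neg]
  refine Finset.sum_congr rfl fun p _ => ?_
  rw [logDeriv_apply, (hasDerivAt_fac p _).deriv, cp p σ t]

end S89

open S89 in
/-- row BR -/
theorem st_br : ST_BR := by
  intro y σ t hσ ht
  have hD := DD_ne y σ t hσ
  have hZ := Zy_eq y σ t
  have hF : ∀ s, Fy y s = riemannZeta s * DD y s - 1 := fun s => rfl
  have h1 : pt σ t ≠ 1 := by
    intro h
    have := congrArg Complex.im h
    simp [pt] at this
    exact ht this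
  have hζ : DifferentiableAt ℂ riemannZeta (pt σ t) := differentiableAt_riemannZeta h1
  have hDd : DifferentiableAt ℂ (DD y) (pt σ t) := by
    unfold DD
    exact DifferentiableAt.fun_finsetProd fun p _ => (hasDerivAt_fac p _).differentiableAt
  have hF' : deriv (Fy y) (pt σ t) = deriv riemannZeta (pt σ t) * DD y (pt σ t) +
      riemannZeta (pt σ t) * deriv (DD y) (pt σ t) := by
    have h2 : HasDerivAt (Fy y) (deriv riemannZeta (pt σ t) * DD y (pt σ t) +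
      riemannZeta (pt σ t) * deriv (DD y) (pt σ t)) (pt σ t) :=
      (hζ.hasDerivAt.mul hDd.hasDerivAt).sub_const 1
    exact h2.deriv
  have hW := logDeriv_DD y σ t hσ
  refine ⟨by rw [hZ]; exact inv_ne_zero hD, ?_, ?_⟩
  · rw [hZ, hF, sub_add_cancel]
    field_simp
  · rw [hZ, hF']
    have h3 : Wy y σ (lin y t) = -(deriv (DD y) (pt σ t) / DD y (pt σ t)) := by
      rw [hW, neg_neg]
    rw [h3]
    field_simp
    ring

end Pool.Agent.Helper57.QZ
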